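import Pool.Agent.H3.Ext2

namespace Pool.Agent.Results.MP_9b3cbe_gt.RankEight

open Pool.Agent.H3.Ext

/-- The exterior algebra of `ℤ⁸`, that is, the cohomology ring of the 8-torus. -/
abbrev Lam : Type := ExteriorAlgebra ℤ (Fin 8 → ℤ)

/-- The degree `d` part `Λᵈ ℤ⁸`. -/
noncomputable def deg (d : ℕ) : Submodule ℤ Lam := ⋀[ℤ]^d (Fin 8 → ℤ)

/-- The generator `e₁ ∧ ⋯ ∧ e₈` of the top degree. -/
noncomputable def top : Lam := ExteriorAlgebra.ιMulti ℤ 8 (Pi.basisFun ℤ (Fin 8))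

/-- The family `v` is a `ℤ`-basis of `Λ² ℤ⁸`. -/
def IsBasisTwo {κ : Type} (v : κ → Lam) : Prop :=
  LinearIndependent ℤ v ∧ Submodule.span ℤ (Set.range v) = deg 2

/-- The form with Gram matrix `G` arises for `n = 8`: for some `ω ∈ Λ⁴ ℤ⁸` and some `ℤ`-basis `v` of
`Λ² ℤ⁸` one has `v i ∧ v j ∧ ω = G i j • e₁ ∧ ⋯ ∧ e₈`. -/
def Arises {κ : Type} (G : Matrix κ κ ℤ) : Prop :=
  ∃ ω ∈ deg 4, ∃ v : κ → Lam, IsBasisTwo v ∧ ∀ i j, v i * v j * ω = G i j • top

/-- The Gram matrix of the hyperbolic plane. -/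
def hyp : Matrix (Fin 2) (Fin 2) ℤ := !![0, 1; 1, 0]

/-- The Gram matrix of `a H ⊕ k (ε E₈)`. -/
def gram (a k : ℕ) (ε : ℤ) :
    Matrix ((Fin 2 × Fin a) ⊕ (Fin 8 × Fin k)) ((Fin 2 × Fin a) ⊕ (Fin 8 × Fin k)) ℤ :=
  Matrix.fromBlocks (Matrix.blockDiagonal fun _ => hyp) 0 0
    (Matrix.blockDiagonal fun _ => ε • CartanMatrix.E₈)

theorem arises_iff {κ : Type} (G : Matrix κ κ ℤ) : Arises G ↔
    ∃ ω ∈ ⋀[ℤ]^4 V, ∃ b : Module.Basis κ ℤ (⋀[ℤ]^2 V),
      ∀ i j, (b i : ExteriorAlgebra ℤ V) * b j * ω = G i j • T := by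
  constructor
  · rintro ⟨ω, hω, v, ⟨h1, h2⟩, h⟩
    refine ⟨ω, hω, (Module.Basis.span h1).map (LinearEquiv.ofEq _ _ h2), fun i j => ?_⟩
    simpa [Module.Basis.span_apply, top, T] using h i j
  · rintro ⟨ω, hω, b, h⟩
    refine ⟨ω, hω, fun i => b i, ⟨b.linearIndependent.map' (Submodule.subtype _) (by simp), ?_⟩, h⟩
    have := congrArg (Submodule.map (Submodule.subtype _)) b.span_eq
    rwa [Submodule.map_span, ← Set.range_comp, Submodule.map_top, Submodule.range_subtype] at this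

theorem e8 (y : Fin 8 → ℤ) : 0 ≤ ∑ a, ∑ b, y a * y b * CartanMatrix.E₈ a b ∧
    (∑ a, ∑ b, y a * y b * CartanMatrix.E₈ a b = 0 → ∀ a, y a = 0) := by
  have h : 4 * ∑ a, ∑ b, y a * y b * CartanMatrix.E₈ a b = (y 0 + 2 * y 1 - 2 * y 2) ^ 2 +
      (-y 0 + 2 * y 1 + 2 * y 2 - 2 * y 3) ^ 2 + (-y 0 + 2 * y 3 - 2 * y 4) ^ 2 +
      (-y 0 + 2 * y 4 - 2 * y 5) ^ 2 + (-y 0 + 2 * y 5 - 2 * y 6) ^ 2 +
      (-y 0 + 2 * y 6 - 2 * y 7) ^ 2 + (-y 0 + 2 * y 7) ^ 2 + y 0 ^ 2 := by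
    simp [Fin.sum_univ_eight, CartanMatrix.E₈]; ring
  have a1 := sq_nonneg (y 0 + 2 * y 1 - 2 * y 2)
  have a2 := sq_nonneg (-y 0 + 2 * y 1 + 2 * y 2 - 2 * y 3)
  have a3 := sq_nonneg (-y 0 + 2 * y 3 - 2 * y 4)
  have a4 := sq_nonneg (-y 0 + 2 * y 4 - 2 * y 5)
  have a5 := sq_nonneg (-y 0 + 2 * y 5 - 2 * y 6)
  have a6 := sq_nonneg (-y 0 + 2 * y 6 - 2 * y 7)
  have a7 := sq_nonneg (-y 0 + 2 * y 7)
  have a8 := sq_nonneg (y 0)
  refine ⟨by linarith, fun h0 => ?_⟩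
  have b1 := pow_eq_zero_iff two_ne_zero |>.1 (le_antisymm (by linarith) a1)
  have b2 := pow_eq_zero_iff two_ne_zero |>.1 (le_antisymm (by linarith) a2)
  have b3 := pow_eq_zero_iff two_ne_zero |>.1 (le_antisymm (by linarith) a3)
  have b4 := pow_eq_zero_iff two_ne_zero |>.1 (le_antisymm (by linarith) a4)
  have b5 := pow_eq_zero_iff two_ne_zero |>.1 (le_antisymm (by linarith) a5)
  have b6 := pow_eq_zero_iff two_ne_zero |>.1 (le_antisymm (by linarith) a6)
  have b7 := pow_eq_zero_iff two_ne_zero |>.1 (le_antisymm (by linarith) a7)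
  have b8 := pow_eq_zero_iff two_ne_zero |>.1 (le_antisymm (by linarith) a8)
  intro a
  fin_cases a <;> simp <;> omega

theorem not_arises (a k : ℕ) (ha : a ≤ 6) (ε : ℤ) (hε : ε * ε = 1) : ¬ Arises (gram a k ε) := by
  rw [arises_iff]
  rintro ⟨ω, -, b, hb⟩
  let U : Fin 7 → ⋀[ℤ]^2 V := fun j => ⟨m [0, j.succ], m_mem [0, j.succ]⟩
  let L : (Fin 7 → ℤ) →ₗ[ℤ] (Fin a → ℤ) := LinearMap.pi fun h =>
    (b.coord (.inl (0, h)) - ε • b.coord (.inl (1, h))) ∘ₗ Fintype.linearCombination ℤ U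
  have hL : ¬ Function.Injective L := fun h => by
    have := LinearMap.finrank_le_finrank_of_injective h
    simp at this; omega
  refine hL ((injective_iff_map_eq_zero L).2 fun v hv => ?_)
  set x := Fintype.linearCombination ℤ U v with hx
  have hx' : (x : ExteriorAlgebra ℤ V) = ∑ j, v j • m [0, j.succ] := by
    simp [hx, Fintype.linearCombination_apply, U]
  have h0 : (x : ExteriorAlgebra ℤ V) * x = 0 := by
    have : ∀ i j : Fin 7, (nrm ([0, i.succ] ++ [0, j.succ])).1 = 0 := by decide +kernel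
    rw [hx', Finset.sum_mul_sum]
    refine Finset.sum_eq_zero fun i _ => Finset.sum_eq_zero fun j _ => ?_
    rw [smul_mul_smul_comm, ← m_app, nrm_spec, this]; simp
  have h1 : ∑ i, ∑ j, b.repr x i * b.repr x j * gram a k ε i j = 0 := by
    apply T_free
    have e : (x : ExteriorAlgebra ℤ V) = ∑ i, b.repr x i • (b i : ExteriorAlgebra ℤ V) := by
      conv_lhs => rw [← b.sum_repr x]
      simp only [Submodule.coe_sum, Submodule.coe_smul]
    have := congrArg (· * ω) h0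
    simp only [zero_mul] at this
    rw [← this]
    conv_rhs => rw [e, Finset.sum_mul_sum]
    simp only [Finset.sum_mul, Finset.sum_smul]
    refine Finset.sum_congr rfl fun i _ => Finset.sum_congr rfl fun j _ => ?_
    rw [smul_mul_smul_comm, smul_mul_assoc, hb, smul_smul]
  have h2 : ∀ h, b.repr x (.inl (0, h)) = ε * b.repr x (.inl (1, h)) := fun h => by
    have := congrFun hv h
    simp only [L, LinearMap.pi_apply, LinearMap.comp_apply, ← hx] at this
    simpa [sub_eq_zero] using this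
  have h3 : ∑ h, 2 * b.repr x (.inl (1, h)) ^ 2 + ∑ h, ∑ p, ∑ q, b.repr x (.inr (p, h)) *
      b.repr x (.inr (q, h)) * CartanMatrix.E₈ p q = 0 := by
    have := congrArg (ε * ·) h1
    simp only [mul_zero] at this
    rw [← this]
    simp only [gram, Fintype.sum_sum_type, Fintype.sum_prod_type_right, Matrix.fromBlocks_apply₁₁,
      Matrix.fromBlocks_apply₁₂, Matrix.fromBlocks_apply₂₁, Matrix.fromBlocks_apply₂₂,
      Matrix.blockDiagonal_apply, Matrix.zero_apply, mul_zero, Finset.sum_const_zero, add_zero,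
      zero_add, mul_ite, Finset.sum_ite_irrel, Finset.sum_ite_eq, Finset.mem_univ, if_true,
      mul_add, Finset.mul_sum, Fin.sum_univ_two, h2, Matrix.smul_apply, smul_eq_mul]
    congr 1
    · refine Finset.sum_congr rfl fun h _ => ?_
      simp [hyp]
      linear_combination (-2 * b.repr x (.inl (1, h)) ^ 2) * hε
    · refine Finset.sum_congr rfl fun h _ => Finset.sum_congr rfl fun p _ =>
        Finset.sum_congr rfl fun q _ => ?_
      linear_combination (-(b.repr x (.inr (p, h)) * b.repr x (.inr (q, h)) * CartanMatrix.E₈ p q)) * hε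
  have n1 : ∀ h ∈ Finset.univ, 0 ≤ 2 * b.repr x (.inl (1, h)) ^ 2 := fun _ _ => by positivity
  have n2 : ∀ h ∈ Finset.univ, 0 ≤ ∑ p, ∑ q, b.repr x (.inr (p, h)) *
      b.repr x (.inr (q, h)) * CartanMatrix.E₈ p q := fun h _ => (e8 fun p => b.repr x (.inr (p, h))).1
  obtain ⟨z1, z2⟩ := (add_eq_zero_iff_of_nonneg (Finset.sum_nonneg n1) (Finset.sum_nonneg n2)).1 h3
  have z3 : ∀ h, b.repr x (.inl (1, h)) = 0 := fun h => by
    simpa using (Finset.sum_eq_zero_iff_of_nonneg n1).1 z1 h (Finset.mem_univ _)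
  have hx0 : x = 0 := by
    refine b.repr.injective (Finsupp.ext ?_)
    rintro (⟨p, h⟩ | ⟨p, h⟩)
    · fin_cases p
      · simpa [z3] using h2 h
      · simpa using z3 h
    · simpa using (e8 fun p => b.repr x (.inr (p, h))).2
        ((Finset.sum_eq_zero_iff_of_nonneg n2).1 z2 h (Finset.mem_univ _)) p
  funext i
  have c : ∀ i j : Fin 7, ok ([0, j.succ] ++ [1, 2, 3, 4, 5, 6, 7].erase i.succ) ∧
      (nrm ([0, j.succ] ++ [1, 2, 3, 4, 5, 6, 7].erase i.succ)).1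
        = if j = i then (-1) ^ (i : ℕ) else 0 := by decide +kernel
  have h4 := congrArg (· * m ([1, 2, 3, 4, 5, 6, 7].erase i.succ)) hx'
  simp only [hx0, Submodule.coe_zero, zero_mul, Finset.sum_mul, smul_mul_assoc, ← m_app,
    m_top (c i _).1, (c i _).2, smul_smul, ← Finset.sum_smul] at h4
  simpa using T_free h4.symm

theorem result (k : ℕ) (hk : k ≤ 3) (ε : ℤ) (hε : ε = 1 ∨ ε = -1) :
    Arises (gram (14 - 4 * k) k ε) ↔ k ≤ 1 := by
  refine ⟨fun h => by_contra fun h' => not_arises _ k (by omega) ε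
    (by rcases hε with rfl | rfl <;> rfl) h, fun h => ?_⟩
  rw [arises_iff]
  interval_cases k
  · exact build (by simp) _ (Sum.elim (fun p => Fin.ofNat 28 (2 * p.2 + p.1)) fun _ => 0)
      (by decide +kernel) om0 P0 Q0 A0 R0 G0 c0L c0A c0R c0G c0Q
      (by rcases hε with rfl | rfl <;> decide +kernel)
  · rcases hε with rfl | rfl
    · exact build (by simp) _ (Sum.elim (fun p => Fin.ofNat 28 (2 * p.2 + p.1))
        fun p => Fin.ofNat 28 (20 + p.1)) (by decide +kernel) om1 P1 Q1 A1 R1 G1 c1L c1A c1R c1G c1Q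
        (by decide +kernel)
    · exact build (by simp) _ (Sum.elim (fun p => Fin.ofNat 28 (2 * p.2 + p.1))
        fun p => Fin.ofNat 28 (20 + p.1)) (by decide +kernel) om2 P2 Q2 A2 R2 G2 c2L c2A c2R c2G c2Q
        (by decide +kernel)

end Pool.Agent.Results.MP_9b3cbe_gt.RankEight
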